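import Pool.Agent.H40.Ha3

set_option autoImplicit false

namespace Pool.Agent.Results.MP_bc5999_lc.NowherePA

open Pool.Agent.H40.Ha

theorem result : ∃ (K D : Type) (_ : PartialOrder K) (A : Fam K D), Nonempty K ∧ A.IsKripke ∧
    (∀ k φ, Ax φ → ∀ v : ℕ → D, (∀ i, v i ∈ A.dom k) → A.Forces φ k v) ∧
    ∀ k, ¬ ∀ φ, Ax φ → ∀ v : ℕ → D, (∀ i, v i ∈ A.dom k) → A.Sat k φ v :=
  ⟨Nd, DD, inferInstance, AA, ne_nd, kripke, fun k _ h => forces_ax h k, not_pa⟩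

end Pool.Agent.Results.MP_bc5999_lc.NowherePA
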